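import Mathlib

/-!
# Triples with three consecutive multiplicatively dependent shifts

For every `k ≥ 3` the triple `(2, 2 ^ k - 2, 2 ^ k * (2 ^ k - 2))` is admissible, so there are infinitely
many admissible triples.
-/

namespace Pool.Agent.Results.MP_0e3340_nt.InfinitelyManyTriples

/-- The triple `(x, y, z)` of integers is multiplicatively dependent: its entries are nonzero and
`x ^ k₁ * y ^ k₂ * z ^ k₃ = 1` for some integers `k₁, k₂, k₃`, not all zero. -/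
def MultDependent (x y z : ℤ) : Prop :=
  x ≠ 0 ∧ y ≠ 0 ∧ z ≠ 0 ∧ ∃ k₁ k₂ k₃ : ℤ, ¬ (k₁ = 0 ∧ k₂ = 0 ∧ k₃ = 0) ∧
    (x : ℚ) ^ k₁ * (y : ℚ) ^ k₂ * (z : ℚ) ^ k₃ = 1

/-- The admissible triples of the problem: pairwise distinct integers larger than `1`, not containing
both `2` and `8`, such that the triple and its shifts by `1` and by `2` are multiplicatively dependent. -/
def Admissible (a b c : ℤ) : Prop :=
  1 < a ∧ 1 < b ∧ 1 < c ∧ a ≠ b ∧ b ≠ c ∧ a ≠ c ∧ ¬ (({2, 8} : Set ℤ) ⊆ {a, b, c}) ∧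
    MultDependent a b c ∧ MultDependent (a + 1) (b + 1) (c + 1) ∧
    MultDependent (a + 2) (b + 2) (c + 2)

theorem admissible_family (k : ℕ) (hk : 3 ≤ k) :
    Admissible 2 (2 ^ k - 2) (2 ^ k * (2 ^ k - 2)) := by
  have h8 : (8 : ℤ) ≤ 2 ^ k := by
    calc (8 : ℤ) = 2 ^ 3 := by norm_num
      _ ≤ 2 ^ k := pow_le_pow_right₀ (by norm_num) hk
  have hdvd : (8 : ℤ) ∣ 2 ^ k := by
    have : (8 : ℤ) = 2 ^ 3 := by norm_num
    rw [this]
    exact pow_dvd_pow 2 hk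
  obtain ⟨m, hm⟩ := hdvd
  have hm1 : 1 ≤ m := by omega
  have hc : (2 : ℤ) ^ k * (2 ^ k - 2) ≥ 8 * (2 ^ k - 2) := by nlinarith
  refine ⟨by norm_num, by omega, by omega, by omega, by omega, by omega, ?_, ?_, ?_, ?_⟩
  · intro h
    have h8' : (8 : ℤ) ∈ ({2, (2 : ℤ) ^ k - 2, (2 : ℤ) ^ k * (2 ^ k - 2)} : Set ℤ) := h (by simp)
    simp only [Set.mem_insert_iff, Set.mem_singleton_iff] at h8'
    rcases h8' with h1 | h1 | h1
    · omega
    · omega
    · omega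
  · refine ⟨by norm_num, by omega, by omega, k, 1, -1, by simp, ?_⟩
    have h2 : ((2 ^ k - 2 : ℤ) : ℚ) ≠ 0 := by
      have : (2 ^ k - 2 : ℤ) ≠ 0 := by omega
      exact_mod_cast this
    have h3 : ((2 : ℤ) : ℚ) ^ k ≠ 0 := by positivity
    rw [zpow_one, zpow_neg_one, zpow_natCast, Int.cast_mul, Int.cast_pow]
    field_simp
  · refine ⟨by norm_num, by omega, by omega, 0, 2, -1, by simp, ?_⟩
    have h2 : ((2 ^ k - 2 + 1 : ℤ) : ℚ) ≠ 0 := by
      have : (2 ^ k - 2 + 1 : ℤ) ≠ 0 := by omega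
      exact_mod_cast this
    have h4 : (2 ^ k * (2 ^ k - 2) + 1 : ℤ) = (2 ^ k - 2 + 1) ^ 2 := by ring
    rw [h4, zpow_zero, one_mul, zpow_neg_one, Int.cast_pow]
    have : ((2 ^ k - 2 + 1 : ℤ) : ℚ) ^ (2 : ℤ) = ((2 ^ k - 2 + 1 : ℤ) : ℚ) ^ 2 := by
      norm_cast
    rw [this]
    exact mul_inv_cancel₀ (pow_ne_zero 2 h2)
  · refine ⟨by norm_num, by omega, by omega, k, -2, 0, by simp, ?_⟩
    have h4 : (2 ^ k - 2 + 2 : ℤ) = 2 ^ k := by ring
    have h5 : ((2 + 2 : ℤ) : ℚ) = 2 ^ 2 := by norm_num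
    have h6 : (2 : ℚ) ^ k ≠ 0 := by positivity
    rw [h4, zpow_zero, mul_one, h5, zpow_natCast, Int.cast_pow, zpow_neg]
    have : (((2 : ℤ) : ℚ) ^ k) ^ (2 : ℤ) = (2 ^ k) ^ 2 := by
      norm_cast
    rw [this, ← pow_mul, ← pow_mul, mul_comm 2 k]
    exact mul_inv_cancel₀ (by positivity)

/-- There are infinitely many admissible triples `(a, b, c)` with `a < b < c`. -/
theorem result :
    {t : ℤ × ℤ × ℤ | t.1 < t.2.1 ∧ t.2.1 < t.2.2 ∧ Admissible t.1 t.2.1 t.2.2}.Infinite := by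
  refine Set.infinite_of_injective_forall_mem
    (f := fun k : ℕ => ((2 : ℤ), (2 : ℤ) ^ (k + 3) - 2, (2 : ℤ) ^ (k + 3) * (2 ^ (k + 3) - 2))) ?_ ?_
  · intro k l hkl
    simp only [Prod.mk.injEq, true_and] at hkl
    have h1 : (2 : ℤ) ^ (k + 3) = 2 ^ (l + 3) := by omega
    have h2 : k + 3 = l + 3 := Int.pow_right_injective (le_refl 2) h1
    omega
  · intro k
    have h8 : (8 : ℤ) ≤ 2 ^ (k + 3) := by
      calc (8 : ℤ) = 2 ^ 3 := by norm_num
        _ ≤ 2 ^ (k + 3) := pow_le_pow_right₀ (by norm_num) (by omega)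
    refine ⟨?_, ?_, admissible_family (k + 3) (by omega)⟩
    · show (2 : ℤ) < 2 ^ (k + 3) - 2
      omega
    · show (2 : ℤ) ^ (k + 3) - 2 < 2 ^ (k + 3) * (2 ^ (k + 3) - 2)
      nlinarith

end Pool.Agent.Results.MP_0e3340_nt.InfinitelyManyTriples
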